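import Pool.Agent.H75.QG.Targets
import Pool.Agent.H42.AC.LOC

/-!
# QG, module LOCG: locality of block paths for general gates

Adaptation of the module LOC of helper42.
-/

set_option autoImplicit false

namespace Pool.Agent.H54.QG

open Finset Pool.Agent.H68.AC Pool.Agent.H75.QA Pool.Agent.H75.QG Pool.Agent.H42.AC

theorem nx_some {V : Type} [DecidableEq V] {M : ℕ} {cs : List (Bool × DT V)} {κ : PA V}
    {τ : List (V × Bool)} (h : nx M cs κ = some τ) :
    ¬ M < (scan cs κ).1.count true ∧ (scan cs κ).2 = some τ := by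
  unfold nx at h
  split_ifs at h with h1
  exact ⟨h1, h⟩

theorem nx_congr {V : Type} [DecidableEq V] {M : ℕ} {cs cs' : List (Bool × DT V)} {κ κ' : PA V}
    (h : scan cs κ = scan cs' κ') : nx M cs κ = nx M cs' κ' := by
  unfold nx
  rw [h]

theorem lv_congr {V : Type} [DecidableEq V] {M : ℕ} {f : List Bool → Bool} {b : Bool}
    {cs cs' : List (Bool × DT V)} {κ κ' : PA V}
    (h : scan cs κ = scan cs' κ') : lv M f b cs κ = lv M f b cs' κ' := by
  unfold lv
  rw [h]

/-- LOCG: locality of block paths. -/
theorem LOCG (hN : T_SCL) : T_LOCG := by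
  intro V _ _ M f b D κA κB csA csB π
  induction π generalizing κA κB with
  | nil =>
    intro hS hE _ _
    refine ⟨trivial, ?_⟩
    intro hc
    rw [List.flatten_nil, updL_nil] at hc
    rw [List.flatten_nil, updL_nil, updL_nil]
    obtain ⟨h0, h1, _⟩ := hN V D κA κB csA csB hS hE
    by_cases hM : M < (scan csB κB).1.count true
    · have hM' : M < (scan csA κA).1.count true := hM.trans_le (h0.sublist.count_le true)
      refine ⟨?_, ?_⟩
      · unfold nx
        rw [if_pos hM']
      · unfold lv
        rw [if_pos hM', if_pos hM]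
    · have hn : (scan csB κB).2 = none := by
        unfold nx at hc
        rwa [if_neg hM] at hc
      have he := h1 hn
      exact ⟨by rw [nx_congr he]; exact hc, lv_congr he⟩
  | cons α π ih =>
    intro hS hE hπ hA
    obtain ⟨⟨τ, hτ, hα⟩, hπ'⟩ := hπ
    obtain ⟨hM, hτ2⟩ := nx_some hτ
    obtain ⟨_, _, h2⟩ := hN V D κA κB csA csB hS hE
    have hAα : ∀ v ∈ α.map Prod.fst, v ∉ D := by
      intro v hv
      rw [List.mem_map] at hv
      obtain ⟨c, hc, rfl⟩ := hv
      exact hA c (by rw [List.flatten_cons]; exact List.mem_append_left _ hc)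
    have hAπ : Avoid D π.flatten := fun c hc =>
      hA c (by rw [List.flatten_cons]; exact List.mem_append_right _ hc)
    have hAτ : Avoid D τ := by
      intro c hc
      by_cases hn : κB c.1 = none
      · have h3 : c.1 ∈ fr κB τ := mem_fr.2 ⟨List.mem_map_of_mem hc, hn⟩
        rw [← hα] at h3
        exact hAα _ h3
      · exact fun hD => hn (hE.2 _ hD)
    have hfr : fr κA τ = fr κB τ := fr_congr (fun c hc => hE.1 _ (hAτ c hc))
    have hfreeB : ∀ v ∈ α.map Prod.fst, κB v = none := by
      intro v hv
      rw [hα] at hv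
      exact (mem_fr.1 hv).2
    have hfreeA : ∀ v ∈ α.map Prod.fst, κA v = none := by
      intro v hv
      rw [hE.1 v (hAα v hv)]
      exact hfreeB v hv
    have hS' : Sim D (updL κA α) csA csB := by
      unfold Sim at hS ⊢
      apply hS.imp
      intro a b hab
      exact ⟨hab.1, fun y hy => hab.2.1 y (hy.of_sub (sub_updL hfreeA)), hab.2.2⟩
    have hE' : ExtOn D (updL κA α) (updL κB α) := by
      constructor
      · intro v hv
        exact updL_congr_at α (hE.1 v hv)
      · intro v hv
        rw [updL_not_mem _ _ _ (fun hm => hAα v hm hv)]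
        exact hE.2 v hv
    obtain ⟨h3, h4⟩ := ih (updL κA α) (updL κB α) hS' hE' hπ' hAπ
    have he := h2 τ hτ2 hAτ
    refine ⟨⟨⟨τ, by rw [nx_congr he]; exact hτ, by rw [hfr]; exact hα⟩, h3⟩, ?_⟩
    intro hc
    rw [List.flatten_cons, updL_append] at hc
    rw [List.flatten_cons, updL_append, updL_append]
    exact h4 hc

end Pool.Agent.H54.QG
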