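import Pool.Agent.H75.QG.TargetsP
import Pool.Agent.H34.QA.PARX
import Pool.Agent.H36.AC.PARU

/-!
# QG, module PARG: the parameters for general gates

Adaptation of the modules PARX of helper34 and PARXU of helper33.
-/

set_option autoImplicit false

namespace Pool.Agent.H54.QG

open Finset Filter Pool.Agent.H68.AC Pool.Agent.H75.QA Pool.Agent.H75.QG Pool.Agent.H34.QA Pool.Agent.H36.AC

/-- The numerical core. -/
theorem parg_core (d C : ℕ) (ε : ℝ) (hε : 0 < ε) (hε1 : ε ≤ 1) (n L k h b w : ℕ) (δ g : ℝ)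
    (hb : b = 4 * C + 12) (hδ0 : 0 < δ) (hδ : δ ≤ ε / (16 * (2 * d + 1))) (hg : g = 2 ^ L)
    (hw : w = n ^ C + 8 * n)
    (hLC : C + 11 ≤ L) (hLε : 8 / ε ≤ L) (hgn : g ≤ n)
    (hng : (n : ℝ) < 2 * g) (hkC : C + 1 ≤ k) (hkn : k * (b * L) ≤ n) (hnk : n < (k + 1) * (b * L))
    (hLn : ((b + 4 * C) * L : ℝ) + 4 * C + 11 ≤ ε * n / 2) (hh : h = ⌊δ * k⌋₊) (s : ℕ)
    (hs : (s : ℝ) ≤ 2 ^ ((1 - ε) * n)) :
    HNG n C k (2 ^ (b * L)) s w ⌊(1 - ε / 4) * k⌋₊ h d (2 * d + 2) (1 / g ^ (b + 3))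
      (1 / g ^ (b + 3) / (64 * ((n : ℝ) ^ C + 1) * w)) := by
  have hgC : 2 ^ C * 2048 ≤ g := by
    rw [hg]
    calc (2 : ℝ) ^ C * 2048 = 2 ^ (C + 11) := by rw [pow_add]; norm_num
      _ ≤ 2 ^ L := pow_le_pow_right₀ (by norm_num) hLC
  have h2C : (1 : ℝ) ≤ 2 ^ C := one_le_pow₀ (by norm_num)
  have hg2048 : 2048 ≤ g := by nlinarith
  have hg0 : 0 < g := by linarith
  have hg1 : 1 ≤ g := by linarith
  have hn0 : (0 : ℝ) < n := by linarith
  have hn1 : (1 : ℝ) ≤ n := by linarith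
  have hN : ((2 ^ (b * L) : ℕ) : ℝ) = g ^ b := by
    push_cast
    rw [hg, ← pow_mul, mul_comm]
  have hL1 : 11 ≤ L := by omega
  have hb12 : 12 ≤ b := by omega
  have hbL1 : 1 ≤ b * L := Nat.mul_pos (by omega) (by omega)
  have hkn' : k ≤ n := le_trans (Nat.le_mul_of_pos_right k hbL1) hkn
  have hkn'R : (k : ℝ) ≤ n := by exact_mod_cast hkn'
  have hk0 : (0 : ℝ) < k := by
    have : 0 < k := by omega
    exact_mod_cast this
  have hkn2 : (k : ℝ) * (b * L) ≤ n := by exact_mod_cast hkn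
  have hnk2 : (n : ℝ) < (k + 1) * (b * L) := by exact_mod_cast hnk
  set X : ℝ := (n : ℝ) ^ C with hX
  have hX1 : 1 ≤ X := one_le_pow₀ hn1
  have hX0 : 0 < X := by linarith
  have hXg : X ≤ 2 ^ C * g ^ C := by
    rw [← mul_pow]
    exact pow_le_pow_left₀ hn0.le hng.le C
  have hwR : (w : ℝ) = X + 8 * n := by
    rw [hw]; push_cast; rfl
  have hw0 : 0 < (w : ℝ) := by rw [hwR]; positivity
  have hgCpos : 0 < g ^ C := by positivity
  have hgC1 : 1 ≤ g ^ C := one_le_pow₀ hg1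
  -- size of w
  have hw64 : 64 * (w : ℝ) ≤ g ^ (C + 2) := by
    rw [hwR, pow_add]
    have e1 : 64 * X ≤ g ^ C * (g ^ 2 / 2) := by
      calc 64 * X ≤ 64 * (2 ^ C * g ^ C) := by linarith
        _ = g ^ C * (64 * 2 ^ C) := by ring
        _ ≤ g ^ C * (g ^ 2 / 2) := by
          apply mul_le_mul_of_nonneg_left _ hgCpos.le
          nlinarith
    have e2 : 64 * (8 * (n : ℝ)) ≤ g ^ C * (g ^ 2 / 2) := by
      calc 64 * (8 * (n : ℝ)) ≤ 1 * (g ^ 2 / 2) := by nlinarith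
        _ ≤ g ^ C * (g ^ 2 / 2) := by
          apply mul_le_mul_of_nonneg_right hgC1
          positivity
    linarith
  -- size of A
  have hX16 : 16 * (X + 1) ≤ g ^ (C + 1) := by
    rw [pow_succ]
    calc 16 * (X + 1) ≤ 16 * (2 * (2 ^ C * g ^ C)) := by linarith
      _ = g ^ C * (32 * 2 ^ C) := by ring
      _ ≤ g ^ C * g := by
        apply mul_le_mul_of_nonneg_left _ hgCpos.le
        nlinarith
  have hXq : X + 1 ≤ g ^ (C + 1) := by linarith
  set q : ℝ := 1 / g ^ (b + 3) / (64 * (X + 1) * w) with hq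
  have hq0 : 0 < q := by rw [hq]; positivity
  have hqi : 1 / q ≤ g ^ (2 * b) := by
    have e1 : 1 / q = (64 * w) * (X + 1) * g ^ (b + 3) := by
      rw [hq]; field_simp
    rw [e1]
    calc (64 * w) * (X + 1) * g ^ (b + 3) ≤ g ^ (C + 2) * g ^ (C + 1) * g ^ (b + 3) := by gcongr
      _ = g ^ (C + 2 + (C + 1) + (b + 3)) := by rw [← pow_add, ← pow_add]
      _ ≤ g ^ (2 * b) := pow_le_pow_right₀ hg1 (by omega)
  have hw2 : 2 * (w : ℝ) ≤ g ^ b := by
    calc 2 * (w : ℝ) ≤ 64 * w := by linarith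
      _ ≤ g ^ (C + 2) := hw64
      _ ≤ g ^ b := pow_le_pow_right₀ hg1 (by omega)
  have hA : 2 * w / q ^ d ≤ (g ^ b) ^ (2 * d + 1) := by
    have e1 : 2 * (w : ℝ) / q ^ d = 2 * w * (1 / q) ^ d := by
      rw [one_div, inv_pow]; rfl
    rw [e1]
    calc 2 * w * (1 / q) ^ d ≤ g ^ b * (g ^ (2 * b)) ^ d := by gcongr
      _ = (g ^ b) ^ (2 * d + 1) := by
        rw [← pow_mul, ← pow_mul, ← pow_add]
        congr 1
        ring
  have hA0 : 0 ≤ 2 * w / q ^ d := by positivity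
  have hlog : ∀ m : ℕ, (g ^ b) ^ m = (2 : ℝ) ^ ((b * L : ℝ) * m) := by
    intro m
    rw [hg, ← pow_mul, ← pow_mul, ← Real.rpow_natCast]
    congr 1
    push_cast
    ring
  have hX4 : 2048 * X ^ 4 ≤ (2 : ℝ) ^ ((4 * C * L : ℝ) + 4 * C + 11) := by
    have e1 : X ^ 4 ≤ (2 ^ C * g ^ C) ^ 4 := pow_le_pow_left₀ hX0.le hXg 4
    have e2 : (2 : ℝ) ^ ((4 * C * L : ℝ) + 4 * C + 11) = 2048 * (2 ^ C * g ^ C) ^ 4 := by
      rw [hg, show ((4 * C * L : ℝ) + 4 * C + 11) = ((11 + (C * 4 + (L * C) * 4) : ℕ) : ℝ) by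
        push_cast; ring, Real.rpow_natCast, pow_add, pow_add, mul_pow, ← pow_mul, ← pow_mul, ← pow_mul]
      norm_num
      ring
    rw [e2]
    linarith
  -- first term
  have hE1 : 2 ^ k * (s * ((2 * w / q ^ d) ^ (2 * h) /
      ((2 ^ (b * L) : ℕ) : ℝ) ^ (⌊(1 - ε / 4) * k⌋₊ + 1))) ≤ 1 / (2048 * X ^ 4) := by
    have hA2 : (2 * w / q ^ d) ^ (2 * h) ≤ (2 : ℝ) ^ ((b * L : ℝ) * k * (ε / 8)) := by
      calc (2 * w / q ^ d) ^ (2 * h) ≤ ((g ^ b) ^ (2 * d + 1)) ^ (2 * h) := by gcongr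
        _ = (g ^ b) ^ ((2 * d + 1) * (2 * h)) := by rw [← pow_mul]
        _ = (2 : ℝ) ^ ((b * L : ℝ) * (((2 * d + 1) * (2 * h) : ℕ) : ℝ)) := hlog _
        _ ≤ (2 : ℝ) ^ ((b * L : ℝ) * k * (ε / 8)) := by
          apply Real.rpow_le_rpow_of_exponent_le (by norm_num)
          push_cast
          have e1 : (h : ℝ) ≤ δ * k := by rw [hh]; exact Nat.floor_le (by positivity)
          have e2 : (2 * d + 1 : ℝ) * (2 * h) ≤ ε * k / 8 := by
            calc (2 * d + 1 : ℝ) * (2 * h) ≤ (2 * d + 1) * (2 * (ε / (16 * (2 * d + 1)) * k)) := by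
                  have : (h : ℝ) ≤ ε / (16 * (2 * d + 1)) * k := e1.trans (by gcongr)
                  gcongr
              _ = ε * k / 8 := by field_simp; norm_num
          calc (b * L : ℝ) * ((2 * d + 1) * (2 * h)) ≤ (b * L : ℝ) * (ε * k / 8) := by gcongr
            _ = _ := by ring
    have hB : (2 : ℝ) ^ k ≤ (2 : ℝ) ^ ((b * L : ℝ) * k * (ε / 8)) := by
      rw [← Real.rpow_natCast]
      apply Real.rpow_le_rpow_of_exponent_le (by norm_num)
      rw [div_le_iff₀ hε] at hLε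
      have hbR : (1 : ℝ) ≤ b := by exact_mod_cast (by omega : 1 ≤ b)
      have e1 : (8 : ℝ) ≤ b * L * ε := by
        calc (8 : ℝ) ≤ 1 * (L * ε) := by linarith
          _ ≤ b * (L * ε) := by gcongr
          _ = _ := by ring
      nlinarith
    have hD : (2 : ℝ) ^ ((b * L : ℝ) * k * (1 - ε / 4)) ≤
        ((2 ^ (b * L) : ℕ) : ℝ) ^ (⌊(1 - ε / 4) * k⌋₊ + 1) := by
      rw [hN, hlog]
      apply Real.rpow_le_rpow_of_exponent_le (by norm_num)
      have e1 : (1 - ε / 4) * k < ⌊(1 - ε / 4) * k⌋₊ + 1 := Nat.lt_floor_add_one _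
      push_cast
      calc (b * L : ℝ) * k * (1 - ε / 4) = b * L * ((1 - ε / 4) * k) := by ring
        _ ≤ b * L * (⌊(1 - ε / 4) * k⌋₊ + 1) := mul_le_mul_of_nonneg_left e1.le (by positivity)
    calc 2 ^ k * (s * ((2 * w / q ^ d) ^ (2 * h) /
          ((2 ^ (b * L) : ℕ) : ℝ) ^ (⌊(1 - ε / 4) * k⌋₊ + 1)))
        ≤ (2 : ℝ) ^ ((b * L : ℝ) * k * (ε / 8)) * ((2 : ℝ) ^ ((1 - ε) * n) *
          ((2 : ℝ) ^ ((b * L : ℝ) * k * (ε / 8)) / (2 : ℝ) ^ ((b * L : ℝ) * k * (1 - ε / 4)))) := by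
          gcongr
      _ = (2 : ℝ) ^ ((b * L : ℝ) * k * (ε / 8) + (1 - ε) * n + (b * L : ℝ) * k * (ε / 8)
            - (b * L : ℝ) * k * (1 - ε / 4)) := by
          rw [Real.rpow_sub (by norm_num), Real.rpow_add (by norm_num), Real.rpow_add (by norm_num)]
          ring
      _ ≤ (2 : ℝ) ^ (-((4 * C * L : ℝ) + 4 * C + 11)) := by
          apply Real.rpow_le_rpow_of_exponent_le (by norm_num)
          have e1 : (b * L : ℝ) * k ≥ n - b * L := by linarith
          have e2 : (1 - ε / 2) * ((b * L : ℝ) * k) ≥ (1 - ε / 2) * (n - b * L) :=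
            mul_le_mul_of_nonneg_left e1 (by linarith)
          have e3 : 0 ≤ (b * L : ℝ) * ε := by positivity
          nlinarith
      _ ≤ 1 / (2048 * X ^ 4) := by
          rw [Real.rpow_neg (by norm_num), ← one_div]
          exact one_div_le_one_div_of_le (by positivity) hX4
  -- second term
  have hE2 : (1 + 2 * w / (q ^ d * ((2 ^ (b * L) : ℕ) : ℝ) ^ (2 * d + 2))) ^ k - 1
      ≤ 1 / (2048 * X ^ 4) := by
    rw [hN]
    set u : ℝ := 2 * w / (q ^ d * (g ^ b) ^ (2 * d + 2)) with hu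
    have hu0 : 0 ≤ u := by rw [hu]; positivity
    have hu1 : u ≤ 1 / g ^ b := by
      have e1 : u = (2 * w / q ^ d) / (g ^ b) ^ (2 * d + 2) := by
        rw [hu]; field_simp
      rw [e1, div_le_div_iff₀ (by positivity) (by positivity), one_mul]
      calc 2 * w / q ^ d * g ^ b ≤ (g ^ b) ^ (2 * d + 1) * g ^ b := by gcongr
        _ = (g ^ b) ^ (2 * d + 2) := by rw [← pow_succ]
    have e0 : 8192 * g * X ^ 4 ≤ g ^ b := by
      have e1 : X ^ 4 ≤ (2 ^ C * g ^ C) ^ 4 := pow_le_pow_left₀ hX0.le hXg 4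
      have e2 : 8192 * (2 ^ C) ^ 4 ≤ g ^ 4 := by
        calc (8192 : ℝ) * (2 ^ C) ^ 4 ≤ (2 ^ C * 2048) ^ 4 := by
              rw [mul_pow]
              have : (0 : ℝ) < (2 ^ C) ^ 4 := by positivity
              nlinarith
          _ ≤ g ^ 4 := pow_le_pow_left₀ (by positivity) hgC 4
      calc 8192 * g * X ^ 4 ≤ 8192 * g * (2 ^ C * g ^ C) ^ 4 := by gcongr
        _ = (8192 * (2 ^ C) ^ 4) * (g * (g ^ C) ^ 4) := by ring
        _ ≤ g ^ 4 * (g * (g ^ C) ^ 4) := by gcongr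
        _ = g ^ (4 * C + 5) := by ring
        _ ≤ g ^ b := pow_le_pow_right₀ hg1 (by omega)
    have hgb : 0 < g ^ b := by positivity
    have hku : k * u ≤ 1 / (4096 * X ^ 4) := by
      calc k * u ≤ (2 * g) * (1 / g ^ b) := by
            have : (k : ℝ) ≤ 2 * g := by linarith
            gcongr
        _ = 2 * g / g ^ b := by ring
        _ ≤ 1 / (4096 * X ^ 4) := by
          rw [div_le_div_iff₀ hgb (by positivity)]
          linarith
    have hX41 : 1 ≤ X ^ 4 := one_le_pow₀ hX1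
    have hku2 : k * u ≤ 1 / 2 := hku.trans (by
      apply one_div_le_one_div_of_le (by norm_num)
      linarith)
    refine (pow_sub_one_le u k hu0 hku2).trans ?_
    calc 2 * (k * u) ≤ 2 * (1 / (4096 * X ^ 4)) := by linarith
      _ = 1 / (2048 * X ^ 4) := by field_simp; norm_num
  -- deep trees
  have hE3 : (2 : ℝ) ^ (n ^ C) * deepG k s w (n ^ C) ≤ 1 / (256 * X ^ 4) := by
    have hs2 : (s : ℝ) ≤ 2 ^ n := by
      refine hs.trans ?_
      rw [← Real.rpow_natCast]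
      apply Real.rpow_le_rpow_of_exponent_le (by norm_num)
      nlinarith
    have e1 : (2 : ℝ) ^ k ≤ 2 ^ n := pow_le_pow_right₀ (by norm_num) hkn'
    have e2 : (16 * (((n ^ C : ℕ) : ℝ) + 1)) ^ k ≤ 16 ^ n := by
      have e20 : 16 * (((n ^ C : ℕ) : ℝ) + 1) ≤ g ^ (C + 1) := by
        push_cast
        exact hX16
      have e21 : (C + 1) * L * k ≤ n := by
        calc (C + 1) * L * k ≤ b * L * k := by
              apply Nat.mul_le_mul_right
              apply Nat.mul_le_mul_right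
              omega
          _ = k * (b * L) := by ring
          _ ≤ n := hkn
      calc (16 * (((n ^ C : ℕ) : ℝ) + 1)) ^ k ≤ (g ^ (C + 1)) ^ k :=
            pow_le_pow_left₀ (by positivity) e20 k
        _ = 2 ^ ((C + 1) * L * k) := by
            rw [hg, ← pow_mul, ← pow_mul]
            congr 1
            ring
        _ ≤ 2 ^ n := pow_le_pow_right₀ (by norm_num) e21
        _ ≤ 16 ^ n := pow_le_pow_left₀ (by norm_num) (by norm_num) n
    have e5 : 256 * X ^ 4 ≤ (2 : ℝ) ^ (2 * n) := by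
      calc 256 * X ^ 4 ≤ 2048 * X ^ 4 := by nlinarith [pow_pos hX0 4]
        _ ≤ (2 : ℝ) ^ ((4 * C * L : ℝ) + 4 * C + 11) := hX4
        _ ≤ (2 : ℝ) ^ (((2 * n : ℕ) : ℝ)) := by
          apply Real.rpow_le_rpow_of_exponent_le (by norm_num)
          push_cast
          have : 0 ≤ (b : ℝ) * L := by positivity
          nlinarith
        _ = _ := Real.rpow_natCast _ _
    unfold deepG
    calc (2 : ℝ) ^ (n ^ C) * (2 ^ k * (s * (3 / 2 * (16 * (((n ^ C : ℕ) : ℝ) + 1)) ^ k / 2 ^ (w + 1))))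
        ≤ (2 : ℝ) ^ (n ^ C) * (2 ^ n * (2 ^ n * (3 / 2 * 16 ^ n / 2 ^ (w + 1)))) := by gcongr
      _ = 3 / 4 * (1 / 2 ^ (2 * n)) := by
          have e3 : (16 : ℝ) ^ n = 2 ^ (4 * n) := by rw [pow_mul]; norm_num
          have e4 : (2 : ℝ) ^ (w + 1) = 2 * 2 ^ (n ^ C) * (2 ^ n * 2 ^ n * 2 ^ (4 * n) * 2 ^ (2 * n)) := by
            rw [hw]
            ring
          rw [e3, e4]
          field_simp
          norm_num
      _ ≤ 1 * (1 / (256 * X ^ 4)) := by
          have := one_div_le_one_div_of_le (by positivity) e5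
          have h0 : (0 : ℝ) ≤ 1 / 2 ^ (2 * n) := by positivity
          linarith
      _ = _ := one_mul _
  -- conclusion
  unfold HNG eta
  have hE : 8 * (2 ^ k * (s * ((2 * w / q ^ d) ^ (2 * h) /
      ((2 ^ (b * L) : ℕ) : ℝ) ^ (⌊(1 - ε / 4) * k⌋₊ + 1))) +
      ((1 + 2 * w / (q ^ d * ((2 ^ (b * L) : ℕ) : ℝ) ^ (2 * d + 2))) ^ k - 1)) +
      2 ^ (n ^ C) * deepG k s w (n ^ C) ≤ (1 / (8 * X ^ 2)) ^ 2 := by
    have e1 : (1 / (8 * X ^ 2)) ^ 2 = 4 * (1 / (256 * X ^ 4)) := by field_simp; norm_num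
    have e2 : 8 * (1 / (2048 * X ^ 4)) = 1 / (256 * X ^ 4) := by field_simp; norm_num
    have e3 : 0 ≤ 1 / (256 * X ^ 4) := by positivity
    rw [e1]
    linarith
  have hsq := Real.sqrt_le_sqrt hE
  rw [Real.sqrt_sq (by positivity)] at hsq
  have hNp : (((2 ^ (b * L) : ℕ) : ℝ) * (1 / g ^ (b + 3))) ^ k ≤ 1 / (2 * X) := by
    have e1 : ((2 ^ (b * L) : ℕ) : ℝ) * (1 / g ^ (b + 3)) = 1 / g ^ 3 := by
      rw [hN, pow_add]; field_simp
    rw [e1, one_div, inv_pow, ← one_div]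
    apply one_div_le_one_div_of_le (by positivity)
    calc 2 * X ≤ 2 * (2 ^ C * g ^ C) := by linarith
      _ ≤ g * (g ^ C * g ^ C) := by
          have e2 : (2 : ℝ) ^ C ≤ g ^ C := pow_le_pow_left₀ (by norm_num) (by linarith) C
          have e3 : (2 : ℝ) ≤ g := by linarith
          gcongr
      _ = g ^ (2 * C + 1) := by ring
      _ ≤ (g ^ 3) ^ k := by
          rw [← pow_mul]
          exact pow_le_pow_right₀ hg1 (by omega)
  have hfin : 4 * X * (1 / (8 * X ^ 2)) = 1 / (2 * X) := by field_simp; norm_num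
  have h1X : 1 / X = 1 / (2 * X) + 1 / (2 * X) := by field_simp; norm_num
  calc (((2 ^ (b * L) : ℕ) : ℝ) * (1 / g ^ (b + 3))) ^ k + 4 * X * √(8 * (2 ^ k * (s *
        ((2 * w / q ^ d) ^ (2 * h) / ((2 ^ (b * L) : ℕ) : ℝ) ^ (⌊(1 - ε / 4) * k⌋₊ + 1))) +
      ((1 + 2 * w / (q ^ d * ((2 ^ (b * L) : ℕ) : ℝ) ^ (2 * d + 2))) ^ k - 1)) +
      2 ^ (n ^ C) * deepG k s w (n ^ C))
      ≤ 1 / (2 * X) + 4 * X * (1 / (8 * X ^ 2)) := by gcongr
    _ = 1 / X := by rw [hfin, h1X]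

/-- PARG: the parameters for general gates, uniformly in the depth. -/
theorem PARG : T_PARG := by
  intro C ε hε hε1
  refine ⟨1 - ε / 4, by linarith, by linarith, fun c₀ hc₀ => ?_⟩
  obtain ⟨K0, hK0⟩ := exists_nat_ge (96 * c₀ / ε)
  obtain ⟨K1, hK1⟩ := exists_nat_ge (5 * c₀)
  set b : ℕ := 4 * C + 12 with hb
  refine ⟨b * (K0 + K1 + 2) + b + 1, ?_⟩
  obtain ⟨M, hM⟩ := exists_nat_ge (8 / ε)
  have hbR : (0 : ℝ) < b := by
    have : 0 < b := by omega
    exact_mod_cast this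
  have hCR : (0 : ℝ) ≤ C := Nat.cast_nonneg C
  have hE3 : ∀ᶠ n : ℕ in atTop, 4 * (4 * C + 11) / ε ≤ (n : ℝ) :=
    tendsto_natCast_atTop_atTop.eventually_ge_atTop _
  filter_upwards [log_le_sqrt (ε / (b * (C + 100))) (by positivity),
    log_le_sqrt (ε / (4 * (b + 4 * C))) (by positivity), hE3,
    eventually_ge_atTop (2 ^ (max (C + 11) M))] with n hn1 hn2 hn3 hn4 d hd1 hdn
  set L := Nat.log 2 n with hL
  have hn0 : n ≠ 0 := by
    have : 0 < 2 ^ (max (C + 11) M) := by positivity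
    omega
  have hLM : max (C + 11) M ≤ L := by
    rw [hL]
    exact Nat.le_log_of_pow_le (by norm_num) hn4
  have hLC : C + 11 ≤ L := (le_max_left _ _).trans hLM
  have hML : M ≤ L := (le_max_right _ _).trans hLM
  have hgn : 2 ^ L ≤ n := Nat.pow_log_le_self 2 hn0
  have hng : n < 2 ^ (L + 1) := Nat.lt_pow_succ_log_self (by norm_num) n
  have hgnR : (2 : ℝ) ^ L ≤ n := by exact_mod_cast hgn
  have hngR : (n : ℝ) < 2 * 2 ^ L := by
    have : (n : ℝ) < 2 ^ (L + 1) := by exact_mod_cast hng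
    rw [pow_succ] at this; linarith
  have hnR : (0 : ℝ) < n := by exact_mod_cast Nat.pos_of_ne_zero hn0
  have hn1' : (1 : ℝ) ≤ n := by exact_mod_cast Nat.pos_of_ne_zero hn0
  have hd1R : (1 : ℝ) ≤ d := by exact_mod_cast hd1
  set δ : ℝ := ε / (32 * (2 * d + 1)) with hδ
  have hδ0 : 0 < δ := by positivity
  have hsq : (√(n : ℝ)) ^ 2 = n := Real.sq_sqrt hnR.le
  have hs1 : 1 ≤ √(n : ℝ) := by rw [Real.one_le_sqrt]; exact hn1'
  have hds : (d : ℝ) ≤ √(n : ℝ) := by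
    apply Real.le_sqrt_of_sq_le
    exact_mod_cast hdn
  set S : ℝ := √(n : ℝ) with hS
  set k := n / (b * L) with hk
  have hbL : 0 < b * L := Nat.mul_pos (by omega) (by omega)
  have hkn : k * (b * L) ≤ n := Nat.div_mul_le_self n (b * L)
  have hnk : n < (k + 1) * (b * L) := by
    have := Nat.lt_div_mul_add (a := n) hbL
    rw [add_mul, one_mul]; exact this
  have hnkR : (n : ℝ) < (k + 1) * (b * L) := by exact_mod_cast hnk
  have hbLR : (0 : ℝ) < b * L := by exact_mod_cast hbL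
  have h1ε : 1 ≤ 1 / ε := by rw [le_div_iff₀ hε]; linarith
  have hinv : 1 + 1 / δ + (C + 1) ≤ (C + 98) / ε * S := by
    have e0 : 1 / δ = 32 * (2 * d + 1) / ε := by rw [hδ]; field_simp
    rw [e0]
    have e1 : 1 ≤ 1 / ε * S := by nlinarith
    have e2 : 32 * (2 * (d : ℝ) + 1) / ε ≤ 96 / ε * S := by
      rw [div_mul_eq_mul_div, div_le_div_iff_of_pos_right hε]
      linarith
    have e3 : (C + 98) / ε * S = (C + 2) * (1 / ε * S) + 96 / ε * S := by ring
    have e4 : (C + 2 : ℝ) * 1 ≤ (C + 2) * (1 / ε * S) :=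
      mul_le_mul_of_nonneg_left e1 (by positivity)
    linarith
  have hkbig : 1 / δ + (C + 1) < k := by
    have e1 : (b * L : ℝ) * (1 + 1 / δ + (C + 1)) ≤ n := by
      calc (b * L : ℝ) * (1 + 1 / δ + (C + 1))
          ≤ (b * (ε / (b * (C + 100)) * S)) * ((C + 98) / ε * S) := by
            apply mul_le_mul (mul_le_mul_of_nonneg_left hn1 hbR.le) hinv (by positivity)
              (by positivity)
        _ = (C + 98) / (C + 100) * S ^ 2 := by field_simp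
        _ ≤ 1 * S ^ 2 := by
            apply mul_le_mul_of_nonneg_right _ (by positivity)
            rw [div_le_one (by positivity)]
            linarith
        _ = n := by rw [hsq, one_mul]
    have e2 : (b * L : ℝ) * (1 + 1 / δ + (C + 1)) < (b * L) * (k + 1) := by linarith
    have e3 := lt_of_mul_lt_mul_left e2 hbLR.le
    linarith
  have hδi : 0 < 1 / δ := by positivity
  have hkC : C + 1 ≤ k := by
    have : ((C + 1 : ℕ) : ℝ) ≤ k := by push_cast; linarith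
    exact_mod_cast this
  have hδk : 1 ≤ δ * k := by
    have e4 : 1 / δ < k := by linarith
    rw [div_lt_iff₀ hδ0] at e4
    linarith
  have hk1 : 1 ≤ k := by omega
  have hg2 : (2 : ℝ) ≤ 2 ^ L := by
    calc (2 : ℝ) = 2 ^ 1 := by norm_num
      _ ≤ 2 ^ L := pow_le_pow_right₀ (by norm_num) (by omega)
  have hg9 : (2 : ℝ) ≤ (2 ^ L) ^ (b + 3) := by
    calc (2 : ℝ) ≤ (2 ^ L) ^ 1 := by rw [pow_one]; exact hg2
      _ ≤ (2 ^ L) ^ (b + 3) := pow_le_pow_right₀ (by linarith) (by omega)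
  have hp2 : 1 / ((2 : ℝ) ^ L) ^ (b + 3) ≤ 1 / 2 := one_div_le_one_div_of_le (by norm_num) hg9
  set w : ℕ := n ^ C + 8 * n with hw
  have hw1 : 1 ≤ w := by
    have : 0 < n := Nat.pos_of_ne_zero hn0
    omega
  have hw1R : (1 : ℝ) ≤ w := by exact_mod_cast hw1
  obtain ⟨γ, hγ⟩ : ∃ γ : ℕ, γ = 2 * d + 2 := ⟨_, rfl⟩
  obtain ⟨ra, hra⟩ : ∃ r : ℕ, r = ⌈c₀ / δ⌉₊ := ⟨_, rfl⟩
  obtain ⟨rc, hrc⟩ : ∃ r : ℕ, r = ⌈c₀ * (1 + γ)⌉₊ := ⟨_, rfl⟩
  have hra1 : c₀ ≤ δ * ra := by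
    have : c₀ / δ ≤ ra := by rw [hra]; exact Nat.le_ceil _
    rw [div_le_iff₀ hδ0] at this
    linarith
  have hrc1 : c₀ * (1 + γ) ≤ rc := by rw [hrc]; exact Nat.le_ceil _
  have hra2 : ra ≤ (K0 + 1) * d := by
    have e0 : (ra : ℝ) < c₀ / δ + 1 := by
      rw [hra]; exact Nat.ceil_lt_add_one (by positivity)
    have e1 : c₀ / δ ≤ K0 * d := by
      have : c₀ / δ = 32 * c₀ / ε * (2 * d + 1) := by rw [hδ]; field_simp
      rw [this]
      calc 32 * c₀ / ε * (2 * (d : ℝ) + 1) ≤ 32 * c₀ / ε * (2 * d + d) := by gcongr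
        _ = 96 * c₀ / ε * d := by ring
        _ ≤ K0 * d := by gcongr
    have e2 : (ra : ℝ) < ((K0 * d + 1 : ℕ) : ℝ) := by push_cast; linarith
    have e3 : ra < K0 * d + 1 := by exact_mod_cast e2
    nlinarith
  have hrc2 : rc ≤ (K1 + 1) * d := by
    have e0 : (rc : ℝ) < c₀ * (1 + γ) + 1 := by
      rw [hrc]; exact Nat.ceil_lt_add_one (by positivity)
    have e1 : c₀ * (1 + γ) ≤ K1 * d := by
      rw [hγ]
      push_cast
      calc c₀ * (1 + (2 * (d : ℝ) + 2)) ≤ c₀ * (d + (2 * d + 2 * d)) := by gcongr <;> linarith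
        _ = 5 * c₀ * d := by ring
        _ ≤ K1 * d := by gcongr
    have e2 : (rc : ℝ) < ((K1 * d + 1 : ℕ) : ℝ) := by push_cast; linarith
    have e3 : rc < K1 * d + 1 := by exact_mod_cast e2
    nlinarith
  obtain ⟨r, hr⟩ : ∃ r : ℕ, r = ra + rc := ⟨_, rfl⟩
  have hrd : r ≤ (K0 + K1 + 2) * d := by
    have e : (K0 + K1 + 2) * d = (K0 + 1) * d + (K1 + 1) * d := by ring
    omega
  have hrR : (r : ℝ) = ra + rc := by rw [hr]; push_cast; rfl
  have hra0 : (0 : ℝ) ≤ ra := Nat.cast_nonneg _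
  have hrc0 : (0 : ℝ) ≤ rc := Nat.cast_nonneg _
  have hγδ : (γ : ℝ) * δ ≤ 1 / 16 := by
    rw [hγ, hδ]
    push_cast
    rw [mul_div_assoc', div_le_div_iff₀ (by positivity) (by norm_num)]
    nlinarith
  have hbr : b * (r + 1) + 1 ≤ (b * (K0 + K1 + 2) + b + 1) * d := by
    have e1 : b * (r + 1) ≤ b * ((K0 + K1 + 2) * d + 1) := Nat.mul_le_mul_left b (by omega)
    have e2 : b * 1 ≤ b * d := Nat.mul_le_mul_left b hd1
    have e3 : (b * (K0 + K1 + 2) + b + 1) * d = b * ((K0 + K1 + 2) * d) + b * d + d := by ring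
    have e4 : b * ((K0 + K1 + 2) * d + 1) = b * ((K0 + K1 + 2) * d) + b * 1 := by ring
    omega
  refine ⟨k, b * L, w, r, γ, δ, 1 / (2 ^ L) ^ (b + 3), 1 / (2 ^ L) ^ (b + 3) / (64 * ((n : ℝ) ^ C + 1) * w), hδ0, hγδ,
    ?_, ?_, hk1, hbL, hkn, ?_, ?_, ?_, hw1, by positivity, hp2, by positivity, ?_, ?_, ?_⟩
  · rw [hrR]
    nlinarith
  · rw [hrR]
    linarith
  · calc k * (2 ^ (b * L)) ^ (r + 1) ≤ n * (n ^ b) ^ (r + 1) := by
          apply Nat.mul_le_mul
          · exact Nat.div_le_self _ _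
          · apply Nat.pow_le_pow_left
            rw [mul_comm, pow_mul]
            exact Nat.pow_le_pow_left hgn b
      _ = n ^ (b * (r + 1) + 1) := by ring
      _ ≤ n ^ ((b * (K0 + K1 + 2) + b + 1) * d) := Nat.pow_le_pow_right (by omega) hbr
  · calc (r + 1) * (b * L) + 1 ≤ (b * (r + 1) + 1) * L := by
          have : (b * (r + 1) + 1) * L = (r + 1) * (b * L) + L := by ring
          rw [this]
          omega
      _ ≤ (b * (K0 + K1 + 2) + b + 1) * d * L := Nat.mul_le_mul_right L hbr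
  · exact Nat.le_floor (by exact_mod_cast hδk)
  · have hXX : (1 : ℝ) ≤ 64 * ((n : ℝ) ^ C + 1) * w := by
      have e1 : (0 : ℝ) ≤ (n : ℝ) ^ C := by positivity
      nlinarith [mul_nonneg e1 (by linarith : (0 : ℝ) ≤ w)]
    have : 1 / ((2 : ℝ) ^ L) ^ (b + 3) / (64 * ((n : ℝ) ^ C + 1) * w) ≤ 1 / ((2 : ℝ) ^ L) ^ (b + 3) :=
      div_le_self (by positivity) hXX
    linarith
  · apply le_of_eq
    field_simp
  · intro s hs
    rw [hγ]
    refine parg_core d C ε hε hε1 n L k ⌊δ * k⌋₊ b w δ (2 ^ L) hb hδ0 ?_ rfl hw hLC ?_ hgnR hngR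
      hkC hkn hnk ?_ rfl s hs
    · rw [hδ]
      apply div_le_div_of_nonneg_left hε.le (by positivity)
      nlinarith
    · exact hM.trans (by exact_mod_cast hML)
    · rw [div_le_iff₀ hε] at hn3
      have hSn : S ≤ n := by nlinarith
      have e1 : (b + 4 * C : ℝ) * L ≤ ε * n / 4 := by
        have e0 : (0 : ℝ) < b + 4 * C := by positivity
        calc (b + 4 * C : ℝ) * L ≤ (b + 4 * C) * (ε / (4 * (b + 4 * C)) * n) := by
              have : (L : ℝ) ≤ ε / (4 * (b + 4 * C)) * n := hn2.trans (by gcongr)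
              gcongr
          _ = ε * n / 4 := by field_simp
      linarith

end Pool.Agent.H54.QG
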